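import Mathlib
import Pool.Agent.Helper58.FX.Defs
import Pool.Agent.Helper91.TTT.Atoms

set_option autoImplicit false
open MeasureTheory Filter Topology
open scoped InnerProductSpace ComplexConjugate ENNReal

/-! FX-9: the Hilbert space of a measure on the circle. -/

namespace Helper39.FX
open Helper58.FX

variable {μ : Measure Tor}

lemma mul_app {H : Type*} [NormedAddCommGroup H] [InnerProductSpace ℂ H] (A B : H →ₗᵢ[ℂ] H)
    (v : H) : (A * B) v = A (B v) := rfl

lemma fourier_T (k : ℕ) (n : ℤ) (x : Tor) :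
    (fourier n (T k x) : ℂ) = fourier ((k : ℤ) * n) x := by
  have h : T k x = (k : ℤ) • x := by
    show k • x = (k : ℤ) • x
    rw [natCast_zsmul]
  rw [h, Helper91.TTT.fourier_zsmul, mul_comm]

lemma UU_coe {k : ℕ} (h : MeasurePreserving (T k) μ μ) (f : Lp ℂ 2 μ) :
    (UU h f : Tor → ℂ) =ᵐ[μ] fun x => f (T k x) :=
  Lp.coeFn_compMeasurePreserving f h

lemma ae_comp {k : ℕ} (h : MeasurePreserving (T k) μ μ) {f g : Tor → ℂ} (hfg : f =ᵐ[μ] g) :
    (fun x => f (T k x)) =ᵐ[μ] fun x => g (T k x) :=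
  h.quasiMeasurePreserving.ae_eq_comp hfg

lemma UU_UU_coe {k l : ℕ} (h : MeasurePreserving (T k) μ μ) (h' : MeasurePreserving (T l) μ μ)
    (f : Lp ℂ 2 μ) : (UU h (UU h' f) : Tor → ℂ) =ᵐ[μ] fun x => f (T l (T k x)) :=
  (UU_coe h _).trans (ae_comp h (UU_coe h' f))

theorem commute_UU (h2 : MeasurePreserving (T 2) μ μ) (h3 : MeasurePreserving (T 3) μ μ) :
    Commute (UU h2) (UU h3) := by
  show UU h2 * UU h3 = UU h3 * UU h2
  ext1 f
  apply Lp.ext
  refine (UU_UU_coe h2 h3 f).trans (EventuallyEq.trans ?_ (UU_UU_coe h3 h2 f).symm)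
  refine Eventually.of_forall (fun x => ?_)
  show f (T 3 (T 2 x)) = f (T 2 (T 3 x))
  exact congrArg f (Helper17.TranslM.T_comm 3 2 x)

theorem ev_coe [IsProbabilityMeasure μ] (a : ℤ) :
    (ev μ a : Tor → ℂ) =ᵐ[μ] fun x => (fourier a x : ℂ) :=
  ContinuousMap.coeFn_toLp μ (fourier a)

lemma UU_ev [IsProbabilityMeasure μ] {k : ℕ} (h : MeasurePreserving (T k) μ μ) (n : ℤ) :
    UU h (ev μ n) = ev μ ((k : ℤ) * n) := by
  apply Lp.ext
  refine (UU_coe h _).trans ((ae_comp h (ev_coe n)).trans (EventuallyEq.trans ?_ (ev_coe _).symm))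
  exact Eventually.of_forall (fun x => fourier_T k n x)

lemma UU_pow_ev [IsProbabilityMeasure μ] {k : ℕ} (h : MeasurePreserving (T k) μ μ) (i : ℕ)
    (n : ℤ) : (UU h ^ i) (ev μ n) = ev μ ((k : ℤ) ^ i * n) := by
  induction i generalizing n with
  | zero => simp
  | succ i ih =>
    rw [pow_succ, mul_app, UU_ev, ih]
    congr 1
    ring

theorem act_ev [IsProbabilityMeasure μ] (h2 : MeasurePreserving (T 2) μ μ)
    (h3 : MeasurePreserving (T 3) μ μ) (s : ℕ × ℕ) (n : ℤ) :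
    act (UU h2) (UU h3) s (ev μ n) = ev μ (sc s * n) := by
  unfold act sc
  rw [mul_app, UU_pow_ev, UU_pow_ev]
  congr 1
  push_cast
  ring

lemma UU_MM {k : ℕ} (h : MeasurePreserving (T k) μ μ) (n : ℤ) :
    UU h * MM μ n = MM μ ((k : ℤ) * n) * UU h := by
  ext1 f
  apply Lp.ext
  rw [mul_app, mul_app]
  refine (UU_coe h _).trans ((ae_comp h (MM_coe n f)).trans ?_)
  refine EventuallyEq.trans ?_ (MM_coe _ _).symm
  filter_upwards [UU_coe h f] with x hx
  rw [hx, fourier_T]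

lemma UU_pow_MM {k : ℕ} (h : MeasurePreserving (T k) μ μ) (i : ℕ) (n : ℤ) :
    UU h ^ i * MM μ n = MM μ ((k : ℤ) ^ i * n) * UU h ^ i := by
  induction i generalizing n with
  | zero => simp
  | succ i ih =>
    rw [pow_succ, mul_assoc, UU_MM, ← mul_assoc, ih, mul_assoc]
    congr 2
    ring

theorem act_MM [IsProbabilityMeasure μ] (h2 : MeasurePreserving (T 2) μ μ)
    (h3 : MeasurePreserving (T 3) μ μ) (s : ℕ × ℕ) (n : ℤ) :
    act (UU h2) (UU h3) s * MM μ n = MM μ (sc s * n) * act (UU h2) (UU h3) s := by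
  unfold act sc
  rw [mul_assoc, UU_pow_MM, ← mul_assoc, UU_pow_MM, mul_assoc]
  congr 2
  push_cast
  ring

theorem MM_zero : MM μ 0 = 1 := by
  ext1 f
  apply Lp.ext
  refine (MM_coe 0 f).trans (Eventually.of_forall (fun x => ?_))
  simp

theorem MM_add (a b : ℤ) : MM μ (a + b) = MM μ a * MM μ b := by
  ext1 f
  apply Lp.ext
  rw [mul_app]
  refine (MM_coe (a + b) f).trans ?_
  refine EventuallyEq.trans ?_ (MM_coe a _).symm
  filter_upwards [MM_coe b f] with x hx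
  rw [hx, fourier_add, mul_assoc]

theorem MM_ev [IsProbabilityMeasure μ] (a b : ℤ) : MM μ a (ev μ b) = ev μ (a + b) := by
  apply Lp.ext
  refine (MM_coe a _).trans ?_
  filter_upwards [ev_coe (μ := μ) b, ev_coe (μ := μ) (a + b)] with x hx hx'
  rw [hx, hx', fourier_add]

theorem inner_ev [IsProbabilityMeasure μ] (a b : ℤ) : ⟪ev μ a, ev μ b⟫_ℂ = ft μ (b - a) := by
  unfold ev ft
  rw [ContinuousMap.inner_toLp μ (fourier a) (fourier b)]
  refine integral_congr_ae (Eventually.of_forall (fun x => ?_))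
  show (fourier b x : ℂ) * conj (fourier a x : ℂ) = fourier (b - a) x
  rw [← fourier_neg, ← fourier_add, sub_eq_add_neg]

theorem norm_ev [IsProbabilityMeasure μ] (a : ℤ) : ‖ev μ a‖ = 1 := by
  have h : ⟪ev μ a, ev μ a⟫_ℂ = 1 := by
    rw [inner_ev, sub_self]
    unfold ft
    simp
  have h' := inner_self_eq_norm_sq_to_K (𝕜 := ℂ) (ev μ a)
  rw [h] at h'
  have h2 : ‖ev μ a‖ ^ 2 = 1 := by
    apply Complex.ofReal_injective
    rw [Complex.ofReal_pow, Complex.ofReal_one]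
    exact h'.symm
  have h3 : (0 : ℝ) ≤ ‖ev μ a‖ := norm_nonneg _
  nlinarith [sq_nonneg (‖ev μ a‖ - 1)]

theorem span_ev [IsProbabilityMeasure μ] :
    (Submodule.span ℂ (Set.range (ev μ))).topologicalClosure = ⊤ := by
  have h := (ContinuousMap.toLp_denseRange ℂ μ ℂ
    (show (2 : ℝ≥0∞) ≠ ∞ by simp)).topologicalClosure_map_submodule
      (span_fourier_closure_eq_top (T := 1))
  rw [Submodule.map_span] at h
  have h2 : ((ContinuousMap.toLp (E := ℂ) 2 μ ℂ : C(Tor, ℂ) →L[ℂ] Lp ℂ 2 μ) : C(Tor, ℂ) →ₗ[ℂ] Lp ℂ 2 μ) '' (Set.range (@fourier 1))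
      = Set.range (ev μ) := by
    rw [← Set.range_comp]
    rfl
  rw [h2] at h
  exact h

end Helper39.FX
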